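import Pool.Agent.Helper95_PSC.Stmts
import Pool.Agent.Helper40_PSC.Tile

set_option autoImplicit false

/-!
Module GifsStmt: the graph directed iterated function system, up to null sets.
-/

namespace Pool.Agent.PSC.H41

open Pool.Agent.Helper40_Pisot MeasureTheory Pool.Agent.PSC Pool.Agent.Helper40_PSC

variable {m : ℕ}

lemma sum_count (w : List (Fin (m + 1))) : ∑ j, (w.count j : ℝ) = w.length := by
  induction w with
  | nil => simp
  | cons b w ih =>
    simp only [List.count_cons, List.length_cons, Nat.cast_add, Finset.sum_add_distrib, ih]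
    congr 1
    rw [Finset.sum_eq_single b]
    · simp
    · intro j _ hj
      have : ¬ (b == j) = true := by simpa using fun h => hj h.symm
      simp [this]
    · intro h
      exact absurd (Finset.mem_univ _) h

lemma pr_cnt (α : Fin (m + 1) → ℝ) (w : List (Fin (m + 1))) :
    pr α (cnt w) = fun i => disc α w i.castSucc := by
  funext i
  have h : ∑ j, ((cnt w j : ℤ) : ℝ) = w.length := by
    rw [← sum_count w]
    refine Finset.sum_congr rfl fun j _ => ?_
    simp [cnt]
  rw [pr, h, disc]
  simp [cnt]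

lemma isUnit_det_pow {M : Matrix (Fin (m + 1)) (Fin (m + 1)) ℤ} (h : |(M.det : ℝ)| = 1) (n : ℕ) :
    IsUnit (M ^ n).det := by
  rw [Matrix.det_pow]
  apply IsUnit.pow
  rw [Int.isUnit_iff]
  have h2 : |M.det| = 1 := by exact_mod_cast h
  rcases abs_eq (by norm_num : (0 : ℤ) ≤ 1) |>.mp h2 with h3 | h3
  · exact Or.inl h3
  · exact Or.inr h3

/-- The image of a tile is a reflected piece. -/
lemma image_tile {σ : Fin (m + 1) → List (Fin (m + 1))}
    {M : Matrix (Fin (m + 1)) (Fin (m + 1)) ℤ} {α : Fin (m + 1) → ℝ}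
    {x0 : ℤ → Fin (m + 1)} {n : ℕ} (hB : ∀ v : Lat m, Bn M α n (pr α v) = pr α ((M ^ n).mulVec v))
    (G F : Face m) (t : ℕ) (hF : F.1 = (M ^ n).mulVec G.1 + cnt ((it σ n [G.2]).take t)) :
    Bn M α n '' tile σ α x0 G = (fun p => pr α F.1 + ph α x0 - p) ''
      (piece σ M α (ph α x0) n ⟨G.2, t⟩ '' Rset σ α G.2) := by
  rw [tile, Set.image_image, Set.image_image]
  refine Set.image_congr fun p _ => ?_
  rw [map_sub, map_add, hB, hF, pr_add, pr_cnt]
  have e1 : Bn M α n (ph α x0) = (Bred M α n).mulVec (ph α x0) := by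
    rw [Bn, Matrix.toLin'_apply]
  rw [e1, piece]
  change _ + _ - Bn M α n p = _
  have e2 : (Matrix.toLin' (Bred M α n)) p = Bn M α n p := rfl
  rw [e2]
  abel

/-- GIFS -/
theorem gifs (hB : LatBStmt) : GifsStmt := by
  intro m σ M r α l a0 x0 D
  obtain ⟨hB1, -, -, hB4, -, hB6⟩ := hB m σ M r α l a0 x0 D
  obtain ⟨C, hC0, hC⟩ := disc_lang_bound D.inc D.pf
  have hp := prim_of_pf D.inc D.pf
  have hcomp : ∀ j, IsCompact (Rset σ α j) := fun j => isCompact_Rset D.ne hp hC j
  have hfin : ∀ j, volume (Rset σ α j) ≠ ⊤ := fun j => (hcomp j).measure_lt_top.ne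
  have hcont : ∀ n p, Continuous (piece σ M α (ph α x0) n p) := by
    intro n p
    unfold piece
    exact continuous_const.add (LinearMap.continuous_of_finiteDimensional _)
  have hunit := fun n => isUnit_det_pow D.pf.det n
  have hinj : ∀ (n : ℕ) (u v : Lat m), (M ^ n).mulVec u = (M ^ n).mulVec v → u = v := by
    intro n u v h
    have h2 := congrArg ((M ^ n)⁻¹.mulVec) h
    rwa [Matrix.mulVec_mulVec, Matrix.mulVec_mulVec, Matrix.nonsing_inv_mul _ (hunit n),
      Matrix.one_mulVec, Matrix.one_mulVec] at h2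
  have hsurj : ∀ (n : ℕ) (v : Lat m), ∃ u : Lat m, (M ^ n).mulVec u = v := by
    intro n v
    refine ⟨(M ^ n)⁻¹.mulVec v, ?_⟩
    rw [Matrix.mulVec_mulVec, Matrix.mul_nonsing_inv _ (hunit n), Matrix.one_mulVec]
  have hIdx : ∀ (n : ℕ) (i b : Fin (m + 1)) (t : ℕ), (⟨b, t⟩ : (_ : Fin (m + 1)) × ℕ) ∈ Idx σ n i ↔
      (it σ n [b])[t]? = some i := by
    intro n i b t
    unfold Idx
    rw [Finset.mem_sigma, Finset.mem_filter, Finset.mem_range]
    constructor
    · rintro ⟨_, _, h⟩
      exact h
    · intro h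
      exact ⟨Finset.mem_univ _, (List.getElem?_eq_some_iff.mp h).1, h⟩
  constructor
  · intro n F
    set U : Set (E m) := ⋃ p ∈ Idx σ n F.2, piece σ M α (ph α x0) n p '' Rset σ α p.1 with hU
    have h1 : Rset σ α F.2 ⊆ U := setEq D.inc D.pf D.hm D.ne hC D.fix n F.2
    -- the volume of the union
    have h2 : volume U ≤ volume (Rset σ α F.2) := by
      refine (measure_biUnion_finset_le _ _).trans ?_
      have hT : ∑ p ∈ Idx σ n F.2, volume (piece σ M α (ph α x0) n p '' Rset σ α p.1) ≠ ⊤ := by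
        apply ENNReal.sum_ne_top.2
        intro p _
        rw [volume_piece]
        exact ENNReal.mul_ne_top ENNReal.ofReal_ne_top (hfin p.1)
      rw [← ENNReal.toReal_le_toReal hT (hfin _)]
      apply le_of_eq
      rw [ENNReal.toReal_sum]
      · have h1 : ∀ p ∈ Idx σ n F.2, (volume (piece σ M α (ph α x0) n p '' Rset σ α p.1)).toReal =
            |(Bred M α n).det| * (volume (Rset σ α p.1)).toReal := by
          intro p _
          rw [volume_piece, ENNReal.toReal_mul, ENNReal.toReal_ofReal (abs_nonneg _)]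
        rw [Finset.sum_congr rfl h1, ← Finset.mul_sum]
        have h3 : ∑ p ∈ Idx σ n F.2, (volume (Rset σ α p.1)).toReal =
            ∑ j, ((M ^ n) F.2 j : ℝ) * (volume (Rset σ α j)).toReal := by
          unfold Idx
          rw [Finset.sum_sigma]
          refine Finset.sum_congr rfl fun j _ => ?_
          change ∑ s ∈ (Finset.range (it σ n [j]).length).filter
            (fun t => (it σ n [j])[t]? = some F.2), (volume (Rset σ α j)).toReal = _
          rw [Finset.sum_const, card_filter_count, nsmul_eq_mul]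
          congr 1
          have := count_it_single D.inc n j F.2
          exact_mod_cast this
        rw [h3, vol_eig D n F.2, ← mul_assoc, det_Bred D.pf n, one_mul]
      · intro p _
        rw [volume_piece]
        exact ENNReal.mul_ne_top ENNReal.ofReal_ne_top (hfin p.1)
    have h3 : (Rset σ α F.2 : Set (E m)) =ᵐ[volume] U :=
      ae_eq_of_subset_of_measure_ge h1 h2 (hcomp _).isClosed.measurableSet.nullMeasurableSet
        (ne_top_of_le_ne_top (hfin _) h2)
    have h4 := (Measure.measurePreserving_sub_left (volume : Measure (E m))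
      (pr α F.1 + ph α x0)).quasiMeasurePreserving.preimage_ae_eq h3
    filter_upwards [h4] with y hy
    have hy' : ((fun y => pr α F.1 + ph α x0 - y) ⁻¹' Rset σ α F.2) y =
      ((fun y => pr α F.1 + ph α x0 - y) ⁻¹' U) y := hy
    rw [tile_eq_preimage]
    have e1 : (y ∈ (fun y => pr α F.1 + ph α x0 - y) ⁻¹' Rset σ α F.2) ↔
        y ∈ (fun y => pr α F.1 + ph α x0 - y) ⁻¹' U := iff_of_eq hy'
    rw [e1]
    constructor
    · intro h
      rw [Set.mem_preimage, hU] at h
      simp only [Set.mem_iUnion] at h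
      obtain ⟨⟨b, t⟩, hp, h⟩ := h
      obtain ⟨u, hu⟩ := hsurj n (F.1 - cnt ((it σ n [b]).take t))
      have hF : F.1 = (M ^ n).mulVec u + cnt ((it σ n [b]).take t) := by rw [hu]; abel
      refine ⟨(u, b), ⟨t, (hIdx n F.2 b t).mp hp, hF⟩, ?_⟩
      rw [image_tile (hB1 n) (u, b) F t hF]
      refine ⟨_, h, ?_⟩
      change pr α F.1 + ph α x0 - (pr α F.1 + ph α x0 - y) = y
      abel
    · rintro ⟨G, ⟨t, ht, hF⟩, h⟩
      rw [image_tile (hB1 n) G F t hF] at h
      obtain ⟨w, hw, rfl⟩ := h
      rw [Set.mem_preimage, hU]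
      simp only [Set.mem_iUnion]
      refine ⟨⟨G.2, t⟩, (hIdx n F.2 G.2 t).mpr ht, ?_⟩
      have e : pr α F.1 + ph α x0 - (pr α F.1 + ph α x0 - w) = w := by abel
      rw [e]
      exact hw
  · rintro n G G' F ⟨t, ht, hF⟩ ⟨t', ht', hF'⟩ hne
    have hpq : (⟨G.2, t⟩ : (_ : Fin (m + 1)) × ℕ) ≠ ⟨G'.2, t'⟩ := by
      intro h
      have h1 : G.2 = G'.2 := congrArg (fun p : (_ : Fin (m + 1)) × ℕ => p.1) h
      have h2 : t = t' := congrArg (fun p : (_ : Fin (m + 1)) × ℕ => p.2) h
      apply hne
      have h3 : (M ^ n).mulVec G.1 = (M ^ n).mulVec G'.1 := by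
        have h4 := hF.symm.trans hF'
        rw [h1, h2] at h4
        exact add_right_cancel h4
      exact Prod.ext (hinj n _ _ h3) h1
    have h0 := null_inter_of_sum_le (μ := volume) (Idx σ n F.2)
      (fun p => piece σ M α (ph α x0) n p '' Rset σ α p.1)
      (fun p _ => ((hcomp p.1).image (hcont n p)).isClosed.measurableSet)
      (fun p _ => ((hcomp p.1).image (hcont n p)).measure_lt_top.ne)
      (sum_pieces_le D.inc D.pf D.hm D.ne hC D.fix n F.2)
      ((hIdx n F.2 G.2 t).mpr ht) ((hIdx n F.2 G'.2 t').mpr ht') hpq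
    have h1 : Bn M α n '' (tile σ α x0 G ∩ tile σ α x0 G') =
        (fun y => pr α F.1 + ph α x0 - y) ⁻¹'
          (piece σ M α (ph α x0) n ⟨G.2, t⟩ '' Rset σ α G.2 ∩
            piece σ M α (ph α x0) n ⟨G'.2, t'⟩ '' Rset σ α G'.2) := by
      rw [Set.image_inter (hB4 n).injective, image_tile (hB1 n) G F t hF,
        image_tile (hB1 n) G' F t' hF', Set.preimage_inter]
      have e : ∀ S : Set (E m), (fun p => pr α F.1 + ph α x0 - p) '' S =
          (fun y => pr α F.1 + ph α x0 - y) ⁻¹' S := by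
        intro S
        ext y
        constructor
        · rintro ⟨p, hp, rfl⟩
          simpa using hp
        · intro hy
          exact ⟨_, hy, by simp⟩
      rw [e, e]
    have h2 : volume (Bn M α n '' (tile σ α x0 G ∩ tile σ α x0 G')) = 0 := by
      rw [h1, (Measure.measurePreserving_sub_left (volume : Measure (E m)) _).measure_preimage]
      · exact h0
      · exact (((hcomp _).image (hcont n _)).isClosed.measurableSet.inter
          ((hcomp _).image (hcont n _)).isClosed.measurableSet).nullMeasurableSet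
    rw [hB6 n] at h2
    have hr0 : 0 < r := by linarith [D.pf.one_lt]
    rcases mul_eq_zero.mp h2 with h3 | h3
    · exfalso
      rw [ENNReal.ofReal_eq_zero] at h3
      have : 0 < (r ^ n)⁻¹ := by positivity
      linarith
    · exact h3

end Pool.Agent.PSC.H41
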